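import Mathlib
import Pool.Agent.Q297.OF.Logic

/-!
# The logics of finite direct products of ordinals have the finite model property

For all nonzero ordinals `α 0, …, α (k - 1)` with `1 ≤ k`, the unimodal logics of the direct
products of the frames `(α i, ≤)` and of the frames `(α i, <)` have the finite model property.
This is the positive answer to Q2.
-/

set_option autoImplicit false

universe u

namespace Pool.Agent.Results.MP_d97c10_lc.FiniteModelProperty

open Pool.Agent.Q297.OF

theorem result : ∀ (k : ℕ), 1 ≤ k → ∀ α : Fin k → Ordinal.{u}, (∀ i, α i ≠ 0) →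
    HasFMP (Log (leRel α)) ∧ HasFMP (Log (ltRel α)) := by
  intro k _ α hα
  have hne : Nonempty (Prd α) :=
    ⟨fun i => ⟨0, pos_iff_ne_zero.2 (hα i)⟩⟩
  exact ⟨(tunable_le α).hasFMP hne, (tunable_lt α).hasFMP hne⟩

end Pool.Agent.Results.MP_d97c10_lc.FiniteModelProperty
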