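import Mathlib
import Pool.Agent.Q297.OF.Base

/-!
# The modal algebras of finite direct products of ordinals are locally finite

For all nonzero ordinals `α 0, …, α (k - 1)` with `1 ≤ k`, the modal algebras of the direct
products of the frames `(α i, ≤)` and of the frames `(α i, <)` are locally finite. This is the
positive answer to Q1.

The proof is by Noetherian induction on the lower sets of the product, which is a well-quasi-order:
in a nonempty lower set `D` with a finite colouring choose a point `x0` which sees as few colours
of `D` as possible. All points of the cone above `x0` in `D` then see the same colours, and the
points of `D` outside of the cone form a smaller lower set, which is recoloured according to the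
colours of the cone that are seen.
-/

set_option autoImplicit false

universe u

namespace Pool.Agent.Results.MP_d97c10_lc.LocallyFinite

open Pool.Agent.Q297.OF

theorem result : ∀ (k : ℕ), 1 ≤ k → ∀ α : Fin k → Ordinal.{u}, (∀ i, α i ≠ 0) →
    AlgLocallyFinite (leRel α) ∧ AlgLocallyFinite (ltRel α) :=
  fun _ _ α _ => ⟨(tunable_le α).locallyFinite, (tunable_lt α).locallyFinite⟩

end Pool.Agent.Results.MP_d97c10_lc.LocallyFinite
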